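import Pool.Agent.Helper20.QD.St3

/-!
# Project QD, module LQC: coordinates on the sphere
-/

set_option autoImplicit false

open Filter Topology Matrix Set Metric
open scoped ComplexConjugate ComplexOrder

namespace Pool.Agent.Helper26.QD

open Pool.Agent.Helper35.PM Pool.Agent.Helper20.QD

/-- the rank one matrix of a vector -/
def VV (n d : ℂ) : Mat := !![n * conj n, n * conj d; conj n * d, d * conj d]

/-- the matrix with one nonzero column -/
def CC (n d : ℂ) : Mat := !![n, 0; d, 0]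

theorem CC_mul (n d : ℂ) : CC n d * (CC n d)ᴴ = VV n d := by
  ext i j
  fin_cases i <;> fin_cases j <;>
    simp [CC, VV, Matrix.mul_apply, Fin.sum_univ_two, Matrix.conjTranspose_apply, mul_comm]

theorem VV_psd (n d : ℂ) : (VV n d).PosSemidef := by
  rw [← CC_mul]
  exact Matrix.posSemidef_self_mul_conjTranspose _

theorem pos1 (z : ℂ) : 0 < 1 + ‖z‖ ^ 2 := by positivity

/-- scalars -/
noncomputable def ka (z : ℂ) : ℝ := (1 + ‖z‖ ^ 2)⁻¹

theorem ka_pos (z : ℂ) : 0 < ka z := inv_pos.mpr (pos1 z)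

theorem Qp_VV (z : ℂ) : Qp z = ((ka z : ℝ) : ℂ) • VV z 1 := by
  unfold Qp VV ka
  rw [Complex.ofReal_inv]
  congr 1
  ext i j
  fin_cases i <;> fin_cases j <;> simp [Complex.mul_conj, Complex.normSq_eq_norm_sq]

theorem Qinf_VV : Qinf = VV 1 0 := by
  unfold Qinf VV
  ext i j
  fin_cases i <;> fin_cases j <;> simp

theorem Qp_apply (z : ℂ) : Qp z 0 0 = ((ka z * ‖z‖ ^ 2 : ℝ) : ℂ) ∧ Qp z 0 1 = (ka z : ℂ) * z ∧
    Qp z 1 0 = (ka z : ℂ) * conj z ∧ Qp z 1 1 = ((ka z : ℝ) : ℂ) := by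
  rw [Qp_VV]
  refine ⟨?_, ?_, ?_, ?_⟩
  · simp [VV, Complex.mul_conj, Complex.normSq_eq_norm_sq]
  · simp [VV]
  · simp [VV]
  · simp [VV]

theorem trace_VV (n d : ℂ) : (VV n d).trace = ((‖n‖ ^ 2 + ‖d‖ ^ 2 : ℝ) : ℂ) := by
  rw [Matrix.trace_fin_two]
  simp [VV, Complex.mul_conj, Complex.normSq_eq_norm_sq]

theorem ka_mul (z : ℂ) : ka z * (1 + ‖z‖ ^ 2) = 1 := inv_mul_cancel₀ (pos1 z).ne'

theorem trace_Qp (z : ℂ) : (Qp z).trace = 1 := by
  rw [Qp_VV, Matrix.trace_smul, trace_VV, smul_eq_mul, ← Complex.ofReal_mul]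
  have : ka z * (‖z‖ ^ 2 + ‖(1 : ℂ)‖ ^ 2) = 1 := by
    rw [norm_one, one_pow, add_comm, ka_mul]
  rw [this, Complex.ofReal_one]

theorem Qp_sph (z : ℂ) : Qp z ∈ sph := by
  refine ⟨?_, trace_Qp z, ?_⟩
  · rw [Qp_VV]
    refine (VV_psd z 1).smul ?_
    exact_mod_cast (ka_pos z).le
  · rw [Qp_VV, Matrix.det_smul, Matrix.det_fin_two]
    simp [VV]

theorem Qinf_sph : Qinf ∈ sph := by
  refine ⟨?_, ?_, ?_⟩
  · rw [Qinf_VV]
    exact VV_psd 1 0
  · rw [Matrix.trace_fin_two]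
    simp [Qinf]
  · rw [Matrix.det_fin_two]
    simp [Qinf]

theorem fr_two (P Q : Mat) : fr P Q = ‖P 0 0 - Q 0 0‖ ^ 2 + ‖P 0 1 - Q 0 1‖ ^ 2 +
    (‖P 1 0 - Q 1 0‖ ^ 2 + ‖P 1 1 - Q 1 1‖ ^ 2) := by
  unfold fr hs
  simp only [Fin.sum_univ_two, Matrix.sub_apply]

theorem fr_Qp (z w : ℂ) : fr (Qp z) (Qp w) =
    2 * ‖z - w‖ ^ 2 / ((1 + ‖z‖ ^ 2) * (1 + ‖w‖ ^ 2)) := by
  obtain ⟨z1, z2, z3, z4⟩ := Qp_apply z
  obtain ⟨w1, w2, w3, w4⟩ := Qp_apply w
  rw [fr_two, z1, z2, z3, z4, w1, w2, w3, w4]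
  have h0 : (2 : ℝ) * ‖z - w‖ ^ 2 / ((1 + ‖z‖ ^ 2) * (1 + ‖w‖ ^ 2)) =
      2 * ka z * ka w * ‖z - w‖ ^ 2 := by
    unfold ka
    field_simp
  rw [h0]
  have hz : ka z * ‖z‖ ^ 2 = 1 - ka z := by linarith [ka_mul z]
  have hw : ka w * ‖w‖ ^ 2 = 1 - ka w := by linarith [ka_mul w]
  rw [← Complex.ofReal_sub, ← Complex.ofReal_sub, Complex.norm_real, Complex.norm_real,
    Real.norm_eq_abs, Real.norm_eq_abs, sq_abs, sq_abs, hz, hw]
  have e1 : ∀ (a b : ℝ) (u v : ℂ), ‖(a : ℂ) * u - (b : ℂ) * v‖ ^ 2 =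
      a ^ 2 * ‖u‖ ^ 2 + b ^ 2 * ‖v‖ ^ 2 - a * b * (‖u‖ ^ 2 + ‖v‖ ^ 2 - ‖u - v‖ ^ 2) := by
    intro a b u v
    simp only [← Complex.normSq_eq_norm_sq, Complex.normSq_apply, Complex.sub_re, Complex.sub_im,
      Complex.mul_re, Complex.mul_im, Complex.ofReal_re, Complex.ofReal_im]
    ring
  rw [e1, e1]
  have hc : ‖conj z - conj w‖ = ‖z - w‖ := by
    rw [← map_sub]
    exact Complex.norm_conj _
  rw [Complex.norm_conj, Complex.norm_conj, hc]
  have hz2 : ka z ^ 2 * ‖z‖ ^ 2 = ka z - ka z ^ 2 := by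
    calc ka z ^ 2 * ‖z‖ ^ 2 = ka z * (ka z * ‖z‖ ^ 2) := by ring
      _ = _ := by rw [hz]; ring
  have hw2 : ka w ^ 2 * ‖w‖ ^ 2 = ka w - ka w ^ 2 := by
    calc ka w ^ 2 * ‖w‖ ^ 2 = ka w * (ka w * ‖w‖ ^ 2) := by ring
      _ = _ := by rw [hw]; ring
  have hzw : ka z * ka w * ‖z‖ ^ 2 = ka w - ka z * ka w := by
    calc ka z * ka w * ‖z‖ ^ 2 = ka w * (ka z * ‖z‖ ^ 2) := by ring
      _ = _ := by rw [hz]; ring
  have hwz : ka z * ka w * ‖w‖ ^ 2 = ka z - ka z * ka w := by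
    calc ka z * ka w * ‖w‖ ^ 2 = ka z * (ka w * ‖w‖ ^ 2) := by ring
      _ = _ := by rw [hw]; ring
  rw [hz2, hw2]
  linear_combination (-2 : ℝ) * hzw - 2 * hwz

theorem fr_Qinf (z : ℂ) : fr Qinf (Qp z) = 2 / (1 + ‖z‖ ^ 2) := by
  obtain ⟨z1, z2, z3, z4⟩ := Qp_apply z
  rw [fr_two, z1, z2, z3, z4]
  have hz : ka z * ‖z‖ ^ 2 = 1 - ka z := by linarith [ka_mul z]
  have h0 : (2 : ℝ) / (1 + ‖z‖ ^ 2) = 2 * ka z := by
    unfold ka
    rw [div_eq_mul_inv]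
  have q1 : Qinf 0 0 = 1 := rfl
  have q2 : Qinf 0 1 = 0 := rfl
  have q3 : Qinf 1 0 = 0 := rfl
  have q4 : Qinf 1 1 = 0 := rfl
  rw [h0, q1, q2, q3, q4, zero_sub, zero_sub, zero_sub, norm_neg, norm_neg, norm_neg, hz, norm_mul,
    norm_mul, Complex.norm_conj]
  have e : (1 : ℂ) - ((1 - ka z : ℝ) : ℂ) = ((ka z : ℝ) : ℂ) := by push_cast; ring
  rw [e, Complex.norm_real, Real.norm_eq_abs, abs_of_pos (ka_pos z), mul_pow]
  have hz2 : ka z ^ 2 * ‖z‖ ^ 2 = ka z - ka z ^ 2 := by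
    calc ka z ^ 2 * ‖z‖ ^ 2 = ka z * (ka z * ‖z‖ ^ 2) := by ring
      _ = _ := by rw [hz]; ring
  rw [hz2]
  ring

theorem Qp_ne (z : ℂ) : Qp z ≠ Qinf := by
  intro h
  have h1 := congrFun (congrFun h 1) 1
  rw [(Qp_apply z).2.2.2] at h1
  have q4 : Qinf 1 1 = 0 := rfl
  rw [q4] at h1
  exact (ka_pos z).ne' (by exact_mod_cast h1)

theorem Qp_cont : Continuous Qp := by
  have hk : Continuous fun z : ℂ => ((ka z : ℝ) : ℂ) := by
    refine Complex.continuous_ofReal.comp ?_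
    unfold ka
    exact Continuous.inv₀ (by fun_prop) fun z => (pos1 z).ne'
  have h : Qp = fun z => Matrix.of ![![((ka z : ℝ) : ℂ) * (z * conj z), ((ka z : ℝ) : ℂ) * z],
      ![((ka z : ℝ) : ℂ) * conj z, ((ka z : ℝ) : ℂ)]] := by
    funext z
    rw [Qp_VV]
    ext i j
    fin_cases i <;> fin_cases j <;> simp [VV]
  rw [h]
  refine continuous_matrix fun i j => ?_
  fin_cases i <;> fin_cases j
  · exact hk.mul (continuous_id.mul Complex.continuous_conj)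
  · exact hk.mul continuous_id
  · exact hk.mul Complex.continuous_conj
  · exact hk

theorem Qp_inj : Function.Injective Qp := by
  intro z w h
  have h1 := congrFun (congrFun h 1) 1
  have h2 := congrFun (congrFun h 0) 1
  rw [(Qp_apply z).2.2.2, (Qp_apply w).2.2.2] at h1
  rw [(Qp_apply z).2.1, (Qp_apply w).2.1, h1] at h2
  have : ((ka w : ℝ) : ℂ) ≠ 0 := by exact_mod_cast (ka_pos w).ne'
  exact mul_left_cancel₀ this h2

theorem density_smul (c : ℂ) (hc : c ≠ 0) (P : Mat) : density (c • P) = density P := by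
  unfold density
  rw [Matrix.trace_smul, smul_eq_mul, mul_inv, smul_smul]
  congr 1
  field_simp

theorem mul_VV (A : Mat) (n d : ℂ) :
    A * VV n d * Aᴴ = VV (A 0 0 * n + A 0 1 * d) (A 1 0 * n + A 1 1 * d) := by
  have h : A * CC n d = CC (A 0 0 * n + A 0 1 * d) (A 1 0 * n + A 1 1 * d) := by
    ext i j
    fin_cases i <;> fin_cases j <;> simp [CC, Matrix.mul_apply, Fin.sum_univ_two]
  calc A * VV n d * Aᴴ = (A * CC n d) * (A * CC n d)ᴴ := by
        rw [← CC_mul, Matrix.conjTranspose_mul]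
        simp only [Matrix.mul_assoc]
    _ = _ := by rw [h, CC_mul]

theorem VV_scale (n d : ℂ) (hd : d ≠ 0) : VV n d = (d * conj d) • VV (n / d) 1 := by
  have hcd : conj d ≠ 0 := by simpa using hd
  ext i j
  fin_cases i <;> fin_cases j <;> simp [VV] <;> field_simp

theorem VV_scale0 (n : ℂ) : VV n 0 = (n * conj n) • VV 1 0 := by
  ext i j
  fin_cases i <;> fin_cases j <;> simp [VV]

theorem density_VV (z : ℂ) : density (VV z 1) = Qp z := by
  have h1 : ((ka z : ℝ) : ℂ) ≠ 0 := by exact_mod_cast (ka_pos z).ne'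
  rw [← density_smul _ h1, ← Qp_VV]
  unfold density
  rw [trace_Qp, inv_one, one_smul]

theorem density_Qinf : density (VV 1 0) = Qinf := by
  rw [← Qinf_VV]
  unfold density
  rw [Qinf_sph.2.1, inv_one, one_smul]

theorem detA (A : SL) : (A : Mat) 0 0 * (A : Mat) 1 1 - (A : Mat) 0 1 * (A : Mat) 1 0 = 1 := by
  rw [← Matrix.det_fin_two]
  exact A.2

theorem act_Qp (A : SL) (z : ℂ) : (den A z ≠ 0 → act A (Qp z) = Qp (mob A z)) ∧
    (den A z = 0 → act A (Qp z) = Qinf) := by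
  have h1 : ((ka z : ℝ) : ℂ) ≠ 0 := by exact_mod_cast (ka_pos z).ne'
  have e : act A (Qp z) = density (VV ((A : Mat) 0 0 * z + (A : Mat) 0 1) (den A z)) := by
    unfold act
    rw [Qp_VV, Matrix.mul_smul, Matrix.smul_mul, density_smul _ h1, mul_VV]
    unfold den
    rw [mul_one, mul_one]
  constructor
  · intro hd
    have hcd : conj (den A z) ≠ 0 := by simpa using hd
    rw [e, VV_scale _ _ hd, density_smul _ (mul_ne_zero hd hcd), density_VV]
    rfl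
  · intro hd
    rw [e, hd, VV_scale0]
    have hn : (A : Mat) 0 0 * z + (A : Mat) 0 1 ≠ 0 := by
      intro hn
      have hd' : (A : Mat) 1 0 * z + (A : Mat) 1 1 = 0 := hd
      have h2 := detA A
      have h3 : (1 : ℂ) = 0 := by
        rw [← h2]
        linear_combination (A : Mat) 0 0 * hd' - (A : Mat) 1 0 * hn
      exact one_ne_zero h3
    have hcn : conj ((A : Mat) 0 0 * z + (A : Mat) 0 1) ≠ 0 := by
      intro h
      exact hn ((map_eq_zero (starRingEnd ℂ)).mp h)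
    rw [density_smul _ (mul_ne_zero hn hcn), density_Qinf]

theorem conj_ne (A : SL) (P : Mat) (hP : P.trace = 1) : (A : Mat) * P * (A : Mat)ᴴ ≠ 0 := by
  intro h
  have h1 : ((A⁻¹ : SL) : Mat) * (A : Mat) = 1 := by
    rw [← Matrix.SpecialLinearGroup.coe_mul, inv_mul_cancel, Matrix.SpecialLinearGroup.coe_one]
  have h2 : (A : Mat)ᴴ * ((A⁻¹ : SL) : Mat)ᴴ = 1 := by
    rw [← Matrix.conjTranspose_mul, h1, Matrix.conjTranspose_one]
  have h3 : P = ((A⁻¹ : SL) : Mat) * ((A : Mat) * P * (A : Mat)ᴴ) * ((A⁻¹ : SL) : Mat)ᴴ := by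
    calc P = (((A⁻¹ : SL) : Mat) * (A : Mat)) * P * ((A : Mat)ᴴ * ((A⁻¹ : SL) : Mat)ᴴ) := by
          rw [h1, h2, Matrix.one_mul, Matrix.mul_one]
      _ = _ := by simp only [Matrix.mul_assoc]
  rw [h, Matrix.mul_zero, Matrix.zero_mul] at h3
  rw [h3, Matrix.trace_zero] at hP
  exact zero_ne_one hP

theorem tr_ne (A : SL) (P : Mat) (hP : P.PosSemidef) (ht : P.trace = 1) :
    ((A : Mat) * P * (A : Mat)ᴴ).trace ≠ 0 := by
  intro h
  exact conj_ne A P ht (((hP.mul_mul_conjTranspose_same (A : Mat)).trace_eq_zero_iff).mp h)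

theorem act_psd (A : SL) (P : Mat) (hP : P.PosSemidef) (ht : P.trace = 1) :
    (act A P).PosSemidef ∧ (act A P).trace = 1 := by
  have hX := hP.mul_mul_conjTranspose_same (A : Mat)
  have h0 : 0 ≤ ((A : Mat) * P * (A : Mat)ᴴ).trace := hX.trace_nonneg
  constructor
  · unfold act density
    exact hX.smul (inv_nonneg.mpr h0)
  · unfold act density
    rw [Matrix.trace_smul, smul_eq_mul, inv_mul_cancel₀ (tr_ne A P hP ht)]

theorem act_sph (A : SL) (Q : Mat) (hQ : Q ∈ sph) : act A Q ∈ sph := by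
  obtain ⟨h1, h2, h3⟩ := hQ
  obtain ⟨a1, a2⟩ := act_psd A Q h1 h2
  refine ⟨a1, a2, ?_⟩
  unfold act density
  rw [Matrix.det_smul, Matrix.det_mul, Matrix.det_mul, h3]
  simp

theorem act_pd (A : SL) (P : Mat) (hP : P.PosDef) (ht : P.trace = 1) :
    (act A P).PosDef ∧ (act A P).trace = 1 := by
  refine ⟨?_, (act_psd A P hP.posSemidef ht).2⟩
  have hinj : Function.Injective (A : Mat).vecMul := by
    refine Matrix.vecMul_injective_of_isUnit ?_
    rw [Matrix.isUnit_iff_isUnit_det, A.2]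
    exact isUnit_one
  have hX := hP.mul_mul_conjTranspose_same hinj
  have h0 : 0 < ((A : Mat) * P * (A : Mat)ᴴ).trace := lt_of_le_of_ne
    hX.posSemidef.trace_nonneg (tr_ne A P hP.posSemidef ht).symm
  unfold act density
  exact hX.smul (inv_pos.mpr h0)

theorem act_mul (A B : SL) (P : Mat) (hP : P.PosSemidef) (ht : P.trace = 1) :
    act (A * B) P = act A (act B P) := by
  have h0 := tr_ne B P hP ht
  have e : act A (act B P) = density ((A : Mat) * ((B : Mat) * P * (B : Mat)ᴴ) * (A : Mat)ᴴ) := by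
    change density ((A : Mat) * density ((B : Mat) * P * (B : Mat)ᴴ) * (A : Mat)ᴴ) = _
    conv_lhs => rw [show density ((B : Mat) * P * (B : Mat)ᴴ) =
      (((B : Mat) * P * (B : Mat)ᴴ).trace)⁻¹ • ((B : Mat) * P * (B : Mat)ᴴ) from rfl]
    rw [Matrix.mul_smul, Matrix.smul_mul, density_smul _ (inv_ne_zero h0)]
  rw [e]
  unfold act
  congr 1
  rw [Matrix.SpecialLinearGroup.coe_mul, Matrix.conjTranspose_mul]
  simp only [Matrix.mul_assoc]

theorem sph_cases (Q : Mat) (hQ : Q ∈ sph) : Q = Qinf ∨ ∃ z, Q = Qp z := by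
  obtain ⟨h1, h2, h3⟩ := hQ
  have hh : Q 1 0 = conj (Q 0 1) := by
    have := congrFun (congrFun h1.isHermitian 1) 0
    rw [Matrix.conjTranspose_apply] at this
    exact this.symm
  have d0 : 0 ≤ Q 0 0 := h1.diag_nonneg
  have d1 : 0 ≤ Q 1 1 := h1.diag_nonneg
  obtain ⟨a, ha0, ha⟩ : ∃ a : ℝ, 0 ≤ a ∧ Q 0 0 = (a : ℂ) :=
    ⟨(Q 0 0).re, (Complex.nonneg_iff.mp d0).1, by
      apply Complex.ext
      · simp
      · simp [(Complex.nonneg_iff.mp d0).2.symm]⟩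
  obtain ⟨b, hb0, hb⟩ : ∃ b : ℝ, 0 ≤ b ∧ Q 1 1 = (b : ℂ) :=
    ⟨(Q 1 1).re, (Complex.nonneg_iff.mp d1).1, by
      apply Complex.ext
      · simp
      · simp [(Complex.nonneg_iff.mp d1).2.symm]⟩
  rw [Matrix.trace_fin_two, ha, hb] at h2
  rw [Matrix.det_fin_two, ha, hb, hh, Complex.mul_conj, Complex.normSq_eq_norm_sq] at h3
  have h2' : a + b = 1 := by exact_mod_cast h2
  have h3' : a * b = ‖Q 0 1‖ ^ 2 := by
    have : a * b - ‖Q 0 1‖ ^ 2 = 0 := by exact_mod_cast h3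
    linarith
  by_cases hb' : b = 0
  · left
    have h4 : ‖Q 0 1‖ ^ 2 = 0 := by rw [← h3', hb', mul_zero]
    have h5 : Q 0 1 = 0 := by simpa using h4
    have ha1 : a = 1 := by linarith
    ext i j
    fin_cases i <;> fin_cases j
    · change Q 0 0 = 1
      rw [ha, ha1, Complex.ofReal_one]
    · exact h5
    · change Q 1 0 = 0
      rw [hh, h5, map_zero]
    · change Q 1 1 = 0
      rw [hb, hb', Complex.ofReal_zero]
  · right
    refine ⟨Q 0 1 / (b : ℂ), ?_⟩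
    have hbp : 0 < b := lt_of_le_of_ne hb0 (Ne.symm hb')
    have hbC : (b : ℂ) ≠ 0 := by exact_mod_cast hb'
    have hn : ‖Q 0 1 / (b : ℂ)‖ ^ 2 = a / b := by
      rw [norm_div, div_pow, ← h3', Complex.norm_real, Real.norm_eq_abs, abs_of_pos hbp]
      field_simp
    have hk : ka (Q 0 1 / (b : ℂ)) = b := by
      unfold ka
      rw [hn]
      have : 1 + a / b = 1 / b := by
        field_simp
        linarith
      rw [this, one_div, inv_inv]
    obtain ⟨z1, z2, z3, z4⟩ := Qp_apply (Q 0 1 / (b : ℂ))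
    rw [hk] at z1 z2 z3 z4
    ext i j
    fin_cases i <;> fin_cases j
    · change Q 0 0 = Qp (Q 0 1 / (b : ℂ)) 0 0
      rw [z1, hn, ha]
      congr 1
      field_simp
    · change Q 0 1 = Qp (Q 0 1 / (b : ℂ)) 0 1
      rw [z2]
      field_simp
    · change Q 1 0 = Qp (Q 0 1 / (b : ℂ)) 1 0
      rw [z3, hh, map_div₀, Complex.conj_ofReal]
      field_simp
    · change Q 1 1 = Qp (Q 0 1 / (b : ℂ)) 1 1
      rw [z4, hb]

theorem hLQC : StLQC :=
  ⟨sph_cases, Qinf_sph, fun z => ⟨Qp_sph z, Qp_ne z⟩, fr_Qp, fr_Qinf, Qp_cont, Qp_inj, act_Qp,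
    act_sph, act_pd, act_mul⟩

end Pool.Agent.Helper26.QD
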