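import Pool.Agent.Helper20.QD.St5

/-!
# Project QD, part B, module WIN: inversion
-/

open Filter Topology Matrix Set Metric MeasureTheory
open scoped ComplexConjugate ComplexOrder

namespace Pool.Agent.Helper26.QD

open Pool.Agent.Helper35.PM Pool.Agent.Helper20.QD

namespace WIN

/-- The inversion matrix. -/
noncomputable def Bm (p : ℂ) : SL :=
  ⟨!![0, Complex.I; Complex.I, -Complex.I * p], by
    rw [Matrix.det_fin_two_of, zero_mul, zero_sub, Complex.I_mul_I, neg_neg]⟩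

theorem den_Bm (p z : ℂ) : den (Bm p) z = Complex.I * (z - p) := by
  have h : ((Bm p : SL) : Mat) = !![0, Complex.I; Complex.I, -Complex.I * p] := rfl
  unfold den
  rw [h]
  simp only [Matrix.of_apply, Matrix.cons_val', Matrix.cons_val_zero, Matrix.cons_val_one,
    Matrix.cons_val_fin_one]
  ring

theorem mob_Bm (p z : ℂ) (hz : z ≠ p) : mob (Bm p) z = 1 / (z - p) := by
  have h : ((Bm p : SL) : Mat) = !![0, Complex.I; Complex.I, -Complex.I * p] := rfl
  have hz' : z - p ≠ 0 := sub_ne_zero.mpr hz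
  unfold mob
  rw [h]
  simp only [Matrix.of_apply, Matrix.cons_val', Matrix.cons_val_zero, Matrix.cons_val_one,
    Matrix.cons_val_fin_one]
  have e : Complex.I * z + -Complex.I * p = Complex.I * (z - p) := by ring
  rw [e, zero_mul, zero_add]
  rw [div_eq_div_iff (mul_ne_zero Complex.I_ne_zero hz') hz']
  ring

theorem den_Bm_ne (p z : ℂ) (hz : z ≠ p) : den (Bm p) z ≠ 0 := by
  rw [den_Bm]
  exact mul_ne_zero Complex.I_ne_zero (sub_ne_zero.mpr hz)

/-- The key identity. -/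
theorem key (A : SL) (p z : ℂ) (hA : den A z ≠ 0) (hi : den A⁻¹ p ≠ 0) :
    (mob A z - p) * den A z = den A⁻¹ p * (z - mob A⁻¹ p) := by
  have h2 : ((A⁻¹ : SL) : Mat) = !![(A : Mat) 1 1, -(A : Mat) 0 1; -(A : Mat) 1 0, (A : Mat) 0 0] := by
    rw [Matrix.SpecialLinearGroup.coe_inv, Matrix.adjugate_fin_two]
  have hd : den A⁻¹ p = -(A : Mat) 1 0 * p + (A : Mat) 0 0 := by
    unfold den
    rw [h2]
    simp
  have hm : mob A⁻¹ p = ((A : Mat) 1 1 * p + -(A : Mat) 0 1) / (-(A : Mat) 1 0 * p + (A : Mat) 0 0) := by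
    unfold mob
    rw [h2]
    simp
  rw [hd] at hi
  rw [hm, hd]
  unfold mob den
  unfold den at hA
  rw [sub_mul, div_mul_cancel₀ _ hA, mul_sub, mul_div_cancel₀ _ hi]
  ring

theorem logOn_const (K : Set ℂ) (c : ℂ) (hc : c ≠ 0) : LogOn K (fun _ => c) :=
  ⟨fun _ => Complex.log c, continuousOn_const, fun _ _ => (Complex.exp_log hc).symm⟩

/-- A set of matrices parametrised by the circle is homeomorphic to the circle. -/
theorem homeo_circle (β : ℂ → ℂ) (J : Set ℂ) (hβ : Param β J) (q : ℂ → Mat) (hq : Continuous q)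
    (hqi : Function.Injective q) (S : Set Mat) (hS : S = q '' J) : Nonempty (S ≃ₜ Circle) := by
  obtain ⟨h1, h2, h3⟩ := hβ
  subst hS
  have hmem : ∀ c : Circle, (c : ℂ) ∈ SS := fun c => by
    rw [mem_sphere_zero_iff_norm]
    exact Circle.norm_coe c
  let f : Circle → (q '' J) := fun c => ⟨q (β c), ⟨β c, h3 ▸ mem_image_of_mem β (hmem c), rfl⟩⟩
  have hc : Continuous f := by
    refine Continuous.subtype_mk ?_ _
    refine hq.comp ?_
    exact h1.comp_continuous continuous_subtype_val hmem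
  have hb : Function.Bijective f := by
    constructor
    · intro a b hab
      have e1 : q (β a) = q (β b) := congrArg Subtype.val hab
      have e2 : β a = β b := hqi e1
      exact Circle.coe_injective (h2 (hmem a) (hmem b) e2)
    · rintro ⟨Q, z, hz, rfl⟩
      rw [← h3] at hz
      obtain ⟨ζ, hζ, rfl⟩ := hz
      rw [mem_sphere_zero_iff_norm] at hζ
      refine ⟨⟨ζ, mem_sphere_zero_iff_norm.mpr hζ⟩, ?_⟩
      rfl
  have hh : IsHomeomorph f := isHomeomorph_iff_continuous_bijective.mpr ⟨hc, hb⟩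
  exact ⟨(hh.homeomorph f).symm⟩

end WIN

open WIN

/-- WIN. -/
theorem hWIN (hTPB : StTPB) (hTSA : StTSA) (hTJ2 : StTJ2) (hTMO : StTMO) (hSUB : StSUB)
    (hLQC : StLQC) (hLLA : StLLA) (hLCJ : StLCJ) (hLGO : StLGO) : StWIN := by
  intro Γ _ ρ p hG hp
  obtain ⟨-, -, hQs, -, -, hQc, hQi, hact, -, -, -⟩ := hLQC
  obtain ⟨-, -, -, hcoc, -, -⟩ := hSUB
  obtain ⟨-, hP2, hP3, -, -, hP6⟩ := hTPB
  obtain ⟨hLc, hLim, hLden, -, -⟩ := hLLA Γ ρ hG.cc.discrete hG.inf
  obtain ⟨β, hβ⟩ := hG.jordan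
  obtain ⟨-, -, hpre, -, -, -, -, -⟩ := hTJ2 β (Lam ρ) hβ
  obtain ⟨hM1, hM2⟩ := hTMO β (Lam ρ) p hβ hp
  have hpL : p ∉ Lam ρ := hp.1
  have hne : ∀ z ∈ Lam ρ, z ≠ p := fun z hz h => hpL (h ▸ hz)
  obtain ⟨hC1, hC2, hC3, -⟩ := hLCJ.1 Γ ρ (Bm p) hG.cc
  have hlim : limitSet (cj (Bm p) ρ) = Qp '' ((fun z => 1 / (z - p)) '' Lam ρ) := by
    rw [hC2, hLim]
    rw [image_image, image_image]
    refine image_congr fun z hz => ?_
    rw [(hact (Bm p) z).1 (den_Bm_ne p z (hne z hz)), mob_Bm p z (hne z hz)]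
  have hinf : Qinf ∉ limitSet (cj (Bm p) ρ) := by
    rw [hlim]
    rintro ⟨z, -, hz⟩
    exact (hQs z).2 hz
  have hLam : Lam (cj (Bm p) ρ) = (fun z => 1 / (z - p)) '' Lam ρ := by
    ext w
    constructor
    · intro hw
      have hw' : Qp w ∈ limitSet (cj (Bm p) ρ) := hw
      rw [hlim] at hw'
      obtain ⟨v, hv, hvw⟩ := hw'
      rw [← hQi hvw]
      exact hv
    · intro hw
      change Qp w ∈ limitSet (cj (Bm p) ρ)
      rw [hlim]
      exact mem_image_of_mem _ hw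
  have hcirc : Nonempty (limitSet ρ ≃ₜ Circle) := homeo_circle β (Lam ρ) hβ Qp hQc hQi _ hLim
  have hgood : Good (cj (Bm p) ρ) := by
    refine (hLGO Γ (cj (Bm p) ρ) hC1 hinf (hC3 hcirc)).2.2.1 fun γ => ?_
    rw [hLam]
    have hMc : ContinuousOn (fun z : ℂ => 1 / (z - p)) (Lam ρ) := by
      refine ContinuousOn.div continuousOn_const (continuousOn_id.sub continuousOn_const) ?_
      intro z hz
      exact sub_ne_zero.mpr (hne z hz)
    have hMi : InjOn (fun z : ℂ => 1 / (z - p)) (Lam ρ) := by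
      intro a ha b hb hab
      have h1 : a - p ≠ 0 := sub_ne_zero.mpr (hne a ha)
      have h2 : b - p ≠ 0 := sub_ne_zero.mpr (hne b hb)
      have h3 : 1 / (a - p) = 1 / (b - p) := hab
      rw [div_eq_div_iff h1 h2] at h3
      linear_combination -h3
    refine hP2 (Lam ρ) _ _ hLc hMc hMi ?_
    obtain ⟨hd1, hd2⟩ := hG.side γ⁻¹ p hp
    rw [map_inv] at hd1 hd2
    have hdisj : Disjoint (inn (Lam ρ)) (Lam ρ) := Set.disjoint_left.mpr fun z hz => hz.1
    have hl1 : LogOn (Lam ρ) (fun z => (z - mob (ρ γ)⁻¹ p) / (z - p)) :=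
      hTSA.1 (Lam ρ) (inn (Lam ρ)) _ p hLc hpre hdisj hd2 hp
    have hl2 := hP3 (Lam ρ) _ _ (logOn_const (Lam ρ) (den (ρ γ)⁻¹ p) hd1) hl1
    refine hP6 (Lam ρ) (Lam ρ) _ _ subset_rfl hl2 ?_
    intro z hz
    have hzp : z - p ≠ 0 := sub_ne_zero.mpr (hne z hz)
    have hdA := (hLden γ z hz).1
    have e1 : cj (Bm p) ρ γ * Bm p = Bm p * ρ γ := by
      change (Bm p * ρ γ * (Bm p)⁻¹) * Bm p = Bm p * ρ γ
      group
    have e2 := (hcoc (cj (Bm p) ρ γ) (Bm p) z (den_Bm_ne p z (hne z hz))).2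
    have e3 := (hcoc (Bm p) (ρ γ) z hdA).2
    rw [e1, e3, mob_Bm p z (hne z hz), den_Bm, den_Bm] at e2
    have e4 := key (ρ γ) p z hdA hd1
    have e5 : Complex.I * (den (ρ γ)⁻¹ p * (z - mob (ρ γ)⁻¹ p)) =
        den (cj (Bm p) ρ γ) (1 / (z - p)) * (Complex.I * (z - p)) := by
      rw [← e4, ← e2]
      ring
    have e6 : den (ρ γ)⁻¹ p * (z - mob (ρ γ)⁻¹ p) =
        den (cj (Bm p) ρ γ) (1 / (z - p)) * (z - p) := by
      have := mul_left_cancel₀ Complex.I_ne_zero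
        (e5.trans (by ring : _ = Complex.I * (den (cj (Bm p) ρ γ) (1 / (z - p)) * (z - p))))
      exact this
    change den (ρ γ)⁻¹ p * ((z - mob (ρ γ)⁻¹ p) / (z - p)) = den (cj (Bm p) ρ γ) (1 / (z - p))
    rw [← mul_div_assoc, e6, mul_div_cancel_right₀ _ hzp]
  refine ⟨Bm p, den_Bm p, mob_Bm p, hgood, hLam, ?_⟩
  rw [hLam, hM2]

end Pool.Agent.Helper26.QD
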